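import Pool.Agent.N963.GN.Stm3
import Pool.Agent.H24R2.JP.Spec

set_option autoImplicit false

/-!
# The operators `φ(D)`, `φ` in the Laguerre-Polya class, applied to the Riemann Xi function (helper963, project KL)

Theorem: if `‖φ(i L)‖ exp(-κ L)` is nondecreasing for large `L`, with some `κ > 1/2`, then all but finitely many zeros
of `φ(D) Ξ` are real and simple, and they are asymptotically equally spaced.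

Every task is one `Prop` below (`S_...`). Notation: `S w = φ (i w)`, `T w = S w * gg w`,
`A z = ∫ Kx t * T t * exp (i z t) dt`, so that `φ(D) Ξ (z) = A z + conj (A (conj z))`;
`L = log (x / (2 π)) / 2`, `W = L + i π/4` the saddle point at height `x`.
-/

namespace Pool.Agent.N963.KL

open Complex Filter Topology MeasureTheory Polynomial
open scoped ComplexConjugate
open Pool.Agent.N963.GN (LPc trm)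
open Pool.Agent.H24R2.JP (HH XX)

/-- Riemann's function. -/
noncomputable def Xi (z : ℂ) : ℂ :=
  ((1 / 2 + I * z) * (1 / 2 + I * z - 1) * completedRiemannZeta₀ (1 / 2 + I * z) + 1) / 2

/-- The terms of the kernel. -/
noncomputable def kt (n : ℕ) (t : ℝ) : ℝ :=
  (4 * Real.pi ^ 2 * ((n : ℝ) + 1) ^ 4 * Real.exp (9 * t / 2) -
    6 * Real.pi * ((n : ℝ) + 1) ^ 2 * Real.exp (5 * t / 2)) *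
    Real.exp (-(Real.pi * ((n : ℝ) + 1) ^ 2 * Real.exp (2 * t)))

/-- The kernel of Xi: `Xi z = ∫ Kx t * exp (i z t) dt`. -/
noncomputable def Kx (t : ℝ) : ℝ := ∑' n : ℕ, kt n t

/-- The cut-off. -/
noncomputable def gg (w : ℂ) : ℂ := 1 / (1 + cexp (-(Complex.sinh w)))

/-- The transform of the first term. -/
noncomputable def Jx (T : ℂ → ℂ) (z : ℂ) : ℂ := ∫ t : ℝ, ((kt 0 t : ℝ) : ℂ) * T (t : ℂ) * cexp (I * z * t)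

/-- `Xi z = MM z * ζ (1/2 + i z)`. -/
noncomputable def MM (z : ℂ) : ℂ := HH (I * z) / 8

/-- The saddle point. -/
noncomputable def w0 (x : ℝ) : ℂ := ((Real.log (x / (2 * Real.pi)) / 2 : ℝ) : ℂ) + ((Real.pi / 4 : ℝ) : ℂ) * I

/-- `max (w.re - p) 0`. -/
noncomputable def rp (p : ℝ) (w : ℂ) : ℝ := max (w.re - p) 0

/-- The properties of `S w = φ (i w)`, `φ` in the Laguerre-Polya class. -/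
structure SS (S : ℂ → ℂ) (κ : ℝ) : Prop where
  diff : Differentiable ℂ S
  ne : ∀ w : ℂ, 0 < w.re → S w ≠ 0
  pos : ∀ w : ℂ, 0 < w.re → 0 ≤ (logDeriv S w).re
  der : ∀ w : ℂ, 0 < w.re → ‖deriv (logDeriv S) w‖ * w.re ≤ (logDeriv S w).re
  herm : ∀ w : ℂ, S (-conj w) = conj (S w)
  bd : ∃ M : ℝ, 0 ≤ M ∧ ∀ w : ℂ, ‖S w‖ ≤ M * Real.exp (M * ‖w‖ ^ 2)
  gro : ∃ L0 : ℝ, 0 < L0 ∧ ∀ a b : ℝ, L0 ≤ a → a ≤ b → ‖S (a : ℂ)‖ * Real.exp (κ * (b - a)) ≤ ‖S (b : ℂ)‖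

/-- The majorant of the terms. -/
noncomputable def bet (κ' L : ℝ) (n : ℕ) : ℝ :=
  if Real.log n ≤ L then (n : ℝ) ^ (-κ') else (n : ℝ) ^ (-3 : ℝ) * Real.exp ((3 - κ') * L)

/-! ## A. The operator -/

/-- Task REP. -/
def S_REP : Prop := (∀ t : ℝ, Kx (-t) = Kx t) ∧ (∀ t : ℝ, Summable fun n : ℕ => kt n t) ∧ Continuous Kx ∧
  (∀ M : ℝ, Integrable (fun t : ℝ => |Kx t| * Real.exp (M * t ^ 2))) ∧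
  ∀ (φ G : ℂ → ℂ), LPc φ → (∀ z : ℂ, HasSum (trm φ Xi z) (G z)) →
    ∀ z : ℂ, G z = ∫ t : ℝ, ((Kx t : ℝ) : ℂ) * φ (I * t) * cexp (I * z * t)

/-- Task STRIP. -/
def S_STRIP : Prop := ∀ (φ G : ℂ → ℂ), LPc φ → (∀ z : ℂ, HasSum (trm φ Xi z) (G z)) → (∃ z, G z ≠ 0) →
  ∀ z : ℂ, G z = 0 → |z.im| ≤ 1 / 2

/-- Task LPS. -/
def S_LPS : Prop := ∀ (φ : ℂ → ℂ) (κ : ℝ), LPc φ →
  (∃ L0 : ℝ, ∀ a b : ℝ, L0 ≤ a → a ≤ b → ‖φ (I * a)‖ * Real.exp (κ * (b - a)) ≤ ‖φ (I * b)‖) →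
  SS (fun w => φ (I * w)) κ

/-! ## B. Estimates for `S` and `gg` -/

/-- Task LPB. -/
def S_LPB : Prop := ∀ (S : ℂ → ℂ) (κ κ' : ℝ), SS S κ → 0 < κ' → κ' < κ → ∃ C L1 : ℝ, 1 ≤ C ∧ 1 ≤ L1 ∧
  (∀ w : ℂ, 1 ≤ w.re → |w.im| ≤ 1 → ‖logDeriv S w‖ ≤ C * w.re ∧ ‖deriv (logDeriv S) w‖ ≤ C) ∧
  ∀ w : ℂ, L1 ≤ w.re → |w.im| ≤ 1 → κ' ≤ (logDeriv S w).re

/-- Task GG. -/
def S_GG : Prop := (∀ w : ℂ, |w.im| < Real.pi / 2 → DifferentiableAt ℂ gg w) ∧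
  (∀ t : ℝ, gg t + gg (-t) = 1 ∧ conj (gg t) = gg t) ∧
  (∃ C : ℝ, 1 ≤ C ∧ (∀ w : ℂ, |w.im| ≤ 1 → ‖gg w‖ ≤ C ∧ ‖deriv gg w‖ ≤ C) ∧
    ∀ w : ℂ, |w.im| ≤ 1 → 0 ≤ w.re → ‖1 - gg w‖ ≤ C * Real.exp (-w.re)) ∧
  ∀ M : ℝ, ∃ C : ℝ, 1 ≤ C ∧ ∀ w : ℂ, |w.im| ≤ 1 → w.re ≤ 0 →
    ‖gg w‖ ≤ C * Real.exp (-(M * w.re ^ 2)) ∧ ‖deriv gg w‖ ≤ C * Real.exp (-(M * w.re ^ 2))

/-- Task TB. -/
def S_TB : Prop := S_LPB → S_GG → ∀ (S : ℂ → ℂ) (κ κ' : ℝ), SS S κ → 1 / 2 < κ' → κ' < κ → κ' < 1 →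
  ∃ C L2 : ℝ, 1 ≤ C ∧ 1 ≤ L2 ∧ ∀ L : ℝ, L2 ≤ L → ∀ n : ℕ, 1 ≤ n → ∀ W : ℂ, W = (L : ℂ) + (Real.pi / 4 : ℝ) * I →
    ‖S (W - Real.log n) * gg (W - Real.log n)‖ ≤ C * ‖S W‖ * bet κ' L n ∧
    ∀ w : ℂ, |w.im - Real.pi / 4| ≤ Real.exp (-(2 / 3 * L)) →
      ‖deriv (fun w => S w * gg w) w‖ ≤ C * L * ‖S W‖ * bet κ' L n *
        Real.exp (C * L * (rp (L - Real.log n) w + rp (L - Real.log n) w ^ 2))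

/-- Task TAU. -/
def S_TAU : Prop := S_LPB → S_GG → ∀ (S : ℂ → ℂ) (κ κ' : ℝ), SS S κ → 1 / 2 < κ' → κ' < κ → κ' < 1 →
  ∀ (η : ℝ) (N : ℕ), 0 < η → ∃ L3 : ℝ, 1 ≤ L3 ∧ ∀ L : ℝ, L3 ≤ L → ∀ W : ℂ, W = (L : ℂ) + (Real.pi / 4 : ℝ) * I →
    ∃ q : ℂ, κ' ≤ q.re ∧ ∀ n : ℕ, 1 ≤ n → n ≤ N →
      ‖S (W - Real.log n) * gg (W - Real.log n) / S W - (n : ℂ) ^ (-q)‖ ≤ η

/-! ## C. Dirichlet series -/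

/-- Task LOW. -/
def S_LOW : Prop := ∀ κ' C : ℝ, 1 / 2 < κ' → ∃ (c η : ℝ) (N : ℕ), 0 < c ∧ 0 < η ∧ ∀ (τ : ℕ → ℂ) (q : ℂ),
  (∀ n : ℕ, 1 ≤ n → ‖τ n‖ ≤ C * (n : ℝ) ^ (-κ')) → κ' ≤ q.re →
  (∀ n : ℕ, 1 ≤ n → n ≤ N → ‖τ n - (n : ℂ) ^ (-q)‖ ≤ η) → ∀ z : ℂ, z.im ≤ (κ' - 1 / 2) / 2 →
    c ≤ ‖∑' n : ℕ, ((n : ℂ) + 1) ^ (-(1 / 2) - I * z) * τ (n + 1)‖

/-- Task DS. -/
def S_DS : Prop := ∀ κ' : ℝ, 1 / 2 < κ' → κ' < 1 → ∃ C : ℝ, 1 ≤ C ∧ ∀ L y : ℝ, 1 ≤ L → -1 ≤ y → y ≤ 1 →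
  (Summable fun n : ℕ => ((n : ℝ) + 1) ^ (-(1 / 2) + y) * bet κ' L (n + 1)) ∧
  ∑' n : ℕ, ((n : ℝ) + 1) ^ (-(1 / 2) + y) * bet κ' L (n + 1) ≤
    C * Real.exp (L * max (y - (κ' - 1 / 2) / 2) 0)

/-- Task SUM. -/
def S_SUM : Prop := ∀ T : ℂ → ℂ, (Continuous fun t : ℝ => T (t : ℂ)) →
  (∃ M : ℝ, ∀ t : ℝ, ‖T (t : ℂ)‖ ≤ M * Real.exp (M * t ^ 2)) →
  (∃ M : ℝ, ∀ t : ℝ, t ≤ 0 → ‖T (t : ℂ)‖ ≤ M * Real.exp (4 * t)) → ∀ z : ℂ, |z.im| ≤ 1 →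
    HasSum (fun n : ℕ => ((n : ℂ) + 1) ^ (-(1 / 2) - I * z) * Jx (fun w => T (w - Real.log ((n : ℝ) + 1))) z)
      (∫ t : ℝ, ((Kx t : ℝ) : ℂ) * T (t : ℂ) * cexp (I * z * t))

/-! ## D. The saddle point -/

/-- The integrand of the Gamma function. -/
noncomputable def EE (s v : ℂ) : ℂ := cexp (s * v - cexp v)

/-- Points of the contour. -/
noncomputable def pt (X r θ : ℝ) : ℂ := ((Real.log X + r : ℝ) : ℂ) + (θ : ℂ) * I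

/-- Task GA1: the staircase contour. -/
def S_GA1 : Prop := ∀ (s : ℂ) (R : ℂ → ℂ) (M X h : ℝ), 0 < s.re → 1 ≤ X → 0 < h → h ≤ 1 / 5 →
  (∀ v : ℂ, |v.im| < Real.pi → DifferentiableAt ℂ R v) →
  (∀ v : ℂ, 0 ≤ v.im → v.im ≤ 2 → ‖R v‖ ≤ M * Real.exp (M * v.re ^ 2)) →
  (∀ v : ℂ, 0 ≤ v.im → v.im ≤ 2 → v.re ≤ 0 → ‖R v‖ ≤ M) →
  Integrable (fun v : ℝ => EE s v * R v) ∧
  ∫ v : ℝ, EE s v * R v =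
    (∫ r in Set.Iic (0 : ℝ), EE s (pt X r (Real.pi / 2 + h)) * R (pt X r (Real.pi / 2 + h))) +
    (∫ r in Set.Ioi (0 : ℝ), EE s (pt X r (Real.pi / 2 - h)) * R (pt X r (Real.pi / 2 - h))) -
    I * ∫ θ in (Real.pi / 2 - h)..(Real.pi / 2 + h), EE s (pt X 0 θ) * R (pt X 0 θ)

/-- Task GA2: the estimate on the contour. -/
def S_GA2 : Prop := ∀ B : ℝ, ∃ C X0 : ℝ, 1 ≤ C ∧ 1 ≤ X0 ∧ ∀ (X : ℝ) (σ : ℂ), X0 ≤ X → ‖σ‖ ≤ B → 1 / 4 ≤ σ.re →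
  ∀ (a b : ℝ) (R : ℂ → ℂ), 0 ≤ a → a ≤ X ^ (1 / 4 : ℝ) → 0 ≤ b →
    (∀ v : ℂ, |v.im - Real.pi / 2| ≤ X ^ (-(1 / 3) : ℝ) → ‖R v‖ ≤ b * ‖v - pt X 0 (Real.pi / 2)‖ *
      Real.exp (a * (rp (Real.log X) v + rp (Real.log X) v ^ 2))) →
    ∀ h : ℝ, h = X ^ (-(1 / 3) : ℝ) → ∀ s : ℂ, s = σ + I * X →
      ‖∫ r in Set.Iic (0 : ℝ), EE s (pt X r (Real.pi / 2 + h)) * R (pt X r (Real.pi / 2 + h))‖ +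
      ‖∫ r in Set.Ioi (0 : ℝ), EE s (pt X r (Real.pi / 2 - h)) * R (pt X r (Real.pi / 2 - h))‖ +
      ‖∫ θ in (Real.pi / 2 - h)..(Real.pi / 2 + h), EE s (pt X 0 θ) * R (pt X 0 θ)‖ ≤
        C * X ^ (σ.re - 2 / 3) * Real.exp (-(Real.pi * X / 2)) * b

/-- Task STI: Stirling for `MM`. -/
def S_STI : Prop := ∃ C c x0 : ℝ, 1 ≤ C ∧ 0 < c ∧ 1 ≤ x0 ∧ ∀ x : ℝ, x0 ≤ x → ∃ β : ℂ,
  ‖β - (Real.log x / 2 : ℝ)‖ ≤ C ∧ ∀ z : ℂ, ‖z - x‖ ≤ 1 →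
    c * x ^ (7 / 4 - z.im / 2) * Real.exp (-(Real.pi * x / 4)) ≤ ‖MM z‖ ∧
    c * ‖MM x‖ * Real.exp (-(β * (z - x)).im) ≤ ‖MM z‖ ∧
    ‖MM z‖ ≤ C * ‖MM x‖ * Real.exp (-(β * (z - x)).im)

/-- Task GA3: the average. -/
def S_GA : Prop := ∃ C x0 : ℝ, 1 ≤ C ∧ 1 ≤ x0 ∧ ∀ (T : ℂ → ℂ) (M a b x : ℝ), x0 ≤ x → 0 ≤ a →
  a ≤ Real.log x ^ 2 → 0 ≤ b → (∀ w : ℂ, |w.im| < Real.pi / 2 → DifferentiableAt ℂ T w) →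
  (∀ w : ℂ, 0 ≤ w.im → w.im ≤ 1 → ‖T w‖ ≤ M * Real.exp (M * w.re ^ 2)) →
  (∀ w : ℂ, 0 ≤ w.im → w.im ≤ 1 → w.re ≤ 0 → ‖T w‖ ≤ M) →
  (∀ w : ℂ, |w.im - Real.pi / 4| ≤ x ^ (-(1 / 3) : ℝ) → ‖deriv T w‖ ≤ b *
    Real.exp (a * (rp (w0 x).re w + rp (w0 x).re w ^ 2))) →
  ∀ z : ℂ, ‖z - x‖ ≤ 1 → ‖Jx T z - T (w0 x) * MM z‖ ≤ C * x ^ (-(1 / 6) : ℝ) * ‖MM z‖ * b

/-! ## E. Assembly -/

/-- The behaviour of `A` near the real axis. -/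
def AB (A : ℂ → ℂ) : Prop := ∃ ε C c x0 : ℝ, 0 < ε ∧ ε ≤ 1 / 4 ∧ 1 ≤ C ∧ 0 < c ∧ 1 ≤ x0 ∧ ∀ x : ℝ, x0 ≤ x →
  ∃ (β : ℂ) (m : ℝ), 0 < m ∧ ‖β - (Real.log x / 2 : ℝ)‖ ≤ C ∧ ∀ z : ℂ, ‖z - x‖ ≤ 1 →
    ‖A z‖ ≤ C * m * Real.exp (-(β * (z - x)).im) * Real.exp (Real.log x / 2 * max (z.im - ε) 0) ∧
    (z.im ≤ ε → c * m * Real.exp (-(β * (z - x)).im) ≤ ‖A z‖)

/-- The function `A`. -/
noncomputable def AA (S : ℂ → ℂ) (z : ℂ) : ℂ := ∫ t : ℝ, ((Kx t : ℝ) : ℂ) * (S t * gg t) * cexp (I * z * t)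

/-- Task AB1. -/
def S_AB : Prop := S_LPB → S_GG → S_TB → S_TAU → S_LOW → S_DS → S_SUM → S_STI → S_GA →
  ∀ (S : ℂ → ℂ) (κ : ℝ), SS S κ → 1 / 2 < κ → AB (AA S)

/-- Task FIN1: from `AB` to the zeros. -/
def S_ZER : Prop := ∀ A : ℂ → ℂ, Differentiable ℂ A → AB A → ∀ G : ℂ → ℂ, (∀ z, G z = A z + conj (A (conj z))) →
  ∃ C x0 : ℝ, 2 ≤ x0 ∧ (∀ z : ℂ, x0 ≤ z.re → |z.im| ≤ 1 / 2 → z.im ≠ 0 → G z ≠ 0) ∧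
    (∀ x : ℝ, x0 ≤ x → G x = 0 → deriv G x ≠ 0) ∧
    (∀ x : ℝ, x0 ≤ x → ∃ y : ℝ, x ≤ y ∧ y ≤ x + 7 / Real.log x ∧ G y = 0) ∧
    ∀ x y : ℝ, x0 ≤ x → x < y → G x = 0 → G y = 0 → (∀ u : ℝ, x < u → u < y → G u ≠ 0) →
      |(y - x) * Real.log x / (2 * Real.pi) - 1| ≤ C / Real.log x

/-! ## F. The sharpness -/

/-- Task COS. -/
def S_COS : Prop := (∀ a : ℝ, 0 < a → LPc (fun z => Complex.cos (a * z))) ∧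
  (∀ a κ : ℝ, 0 < κ → κ < a → ∃ L0 : ℝ, ∀ u v : ℝ, L0 ≤ u → u ≤ v →
    ‖Complex.cos (a * (I * u))‖ * Real.exp (κ * (v - u)) ≤ ‖Complex.cos (a * (I * v))‖) ∧
  ∀ (a : ℝ) (z : ℂ), HasSum (trm (fun z => Complex.cos (a * z)) Xi z) ((Xi (z + I * a) + Xi (z - I * a)) / 2)

/-- Task SHA: with `N799.TL.Main`. -/
def S_SHA : Prop :=
  (∀ a : ℝ, 0 < a → a < 1 / 2 → {z : ℂ | Xi (z + I * a) + Xi (z - I * a) = 0 ∧ z.im ≠ 0}.Finite →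
    ∃ σ : ℝ, σ < 1 ∧ ∀ s : ℂ, σ ≤ s.re → riemannZeta s ≠ 0) ∧
  ((∃ σ : ℝ, σ < 1 ∧ ∀ s : ℂ, σ ≤ s.re → riemannZeta s ≠ 0) → ∃ a : ℝ, 0 < a ∧ a < 1 / 2 ∧
    ∀ z : ℂ, Xi (z + I * a) + Xi (z - I * a) = 0 → z.im = 0)

end Pool.Agent.N963.KL
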