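import Pool.Agent.N963.KL.Main
import Pool.Agent.N693.KL.Rep
import Pool.Agent.N136.KL.Strip
import Pool.Agent.N711.KL.Lps
import Pool.Agent.N225.KL.Lpb
import Pool.Agent.N327.KL.Gg
import Pool.Agent.N297.KL.Tb
import Pool.Agent.N362.KL.Tau
import Pool.Agent.N713.KL.Low
import Pool.Agent.N591.KL.Ds
import Pool.Agent.N265.KL.Sum
import Pool.Agent.N49.KL.Ga1
import Pool.Agent.N284.KL.Ga2
import Pool.Agent.N40.KL.Sti
import Pool.Agent.N40.KL.Ga3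
import Pool.Agent.N407.KL.Ab
import Pool.Agent.N539.KL.Zer
import Pool.Agent.N539.KL.Cos
import Pool.Agent.N747.KL.Sha

set_option autoImplicit false

/-!
# Project KL: the theorem (helper963; lemmas by helpers 693, 136, 711, 225, 327, 297, 362, 713, 591, 265, 49, 284,
40, 407, 539, 747)
-/

namespace Pool.Agent.N963.KL

open Complex Filter Topology MeasureTheory Polynomial
open scoped ComplexConjugate
open Pool.Agent.N963.GN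

theorem rep_sum (φ : ℂ → ℂ) (hφ : LPc φ) (z : ℂ) : HasSum (trm φ Xi z) (GZ φ z) := by
  obtain ⟨hne, Q, hQ, hT⟩ := hφ
  have hd : Differentiable ℂ φ := Pool.Agent.N693.KL.diff_of hT
  obtain ⟨M, hM0, N0, hM⟩ := Pool.Agent.N134.GN.c2 φ Q hne hQ hT
  have hb : ∀ s : ℂ, ‖φ s‖ ≤ M * Real.exp (M * ‖s‖ ^ 2) := by
    intro s
    have h1 : Tendsto (fun N : ℕ => ‖aeval s (Q N)‖) atTop (𝓝 ‖φ s‖) :=
      ((tendstoLocallyUniformlyOn_univ.2 hT).tendsto_at (Set.mem_univ s)).norm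
    refine le_of_tendsto h1 ?_
    filter_upwards [eventually_ge_atTop N0] with N hN
    exact hM N hN s
  have hk2 : ∀ M : ℝ, Integrable (fun u : ℝ => ‖((Kx u : ℝ) : ℂ)‖ * Real.exp (M * u ^ 2)) := by
    intro M
    refine (Pool.Agent.N693.KL.Kx_int M).congr (Eventually.of_forall fun t => ?_)
    simp only [Complex.norm_real, Real.norm_eq_abs]
  have h2 := Pool.Agent.N963.GNC6.sum_Lt Pool.Agent.N693.KL.Kx_wt hk2 hd hb z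
  have h3 : Lt (fun t : ℝ => ((Kx t : ℝ) : ℂ)) = Xi := funext Pool.Agent.N693.KL.Lt_Kx
  rw [h3] at h2
  exact h2

theorem ga : S_GA := Pool.Agent.N40.KL.ga3 Pool.Agent.N49.KL.ga1 Pool.Agent.N284.KL.ga2 Pool.Agent.N40.KL.sti

theorem abA : ∀ (S : ℂ → ℂ) (κ : ℝ), SS S κ → 1 / 2 < κ → AB (AA S) :=
  Pool.Agent.N407.KL.ab Pool.Agent.N225.KL.lpb Pool.Agent.N327.KL.gg Pool.Agent.N297.KL.tb Pool.Agent.N362.KL.tau
    Pool.Agent.N713.KL.low Pool.Agent.N591.KL.ds Pool.Agent.N265.KL.sum Pool.Agent.N40.KL.sti ga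

theorem fin1 {φ : ℂ → ℂ} {κ : ℝ} (hφ : LPc φ) (hκ : 1 / 2 < κ) (hgw : Gw φ κ) :
    Differentiable ℂ (GZ φ) ∧ {z : ℂ | GZ φ z = 0 ∧ (z.im ≠ 0 ∨ deriv (GZ φ) z = 0)}.Finite ∧
    {x : ℝ | GZ φ x = 0}.Infinite ∧
    ∃ C x0 : ℝ, 2 ≤ x0 ∧ ∀ x y : ℝ, x0 ≤ x → x < y → GZ φ x = 0 → GZ φ y = 0 →
      (∀ u : ℝ, x < u → u < y → GZ φ u ≠ 0) → |(y - x) * Real.log x / (2 * Real.pi) - 1| ≤ C / Real.log x :=
  main1 Pool.Agent.N693.KL.rep Pool.Agent.N327.KL.gg Pool.Agent.N711.KL.lps abA Pool.Agent.N539.KL.zer rep_sum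
    Pool.Agent.N136.KL.strip hφ hκ hgw

theorem fin2 :
    ((∃ σ : ℝ, σ < 1 ∧ ∀ s : ℂ, σ ≤ s.re → riemannZeta s ≠ 0) ↔ ∃ a : ℝ, 0 < a ∧ a < 1 / 2 ∧
      ∀ G : ℂ → ℂ, (∀ z, HasSum (trm (fun z => Complex.cos (a * z)) Xi z) (G z)) →
        {z : ℂ | G z = 0 ∧ z.im ≠ 0}.Finite) ∧
    ((∃ κ : ℝ, 0 < κ ∧ κ < 1 / 2 ∧ ∀ φ : ℂ → ℂ, LPc φ → Gw φ κ →
      ∀ G : ℂ → ℂ, (∀ z, HasSum (trm φ Xi z) (G z)) → {z : ℂ | G z = 0 ∧ z.im ≠ 0}.Finite) →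
      ∃ σ : ℝ, σ < 1 ∧ ∀ s : ℂ, σ ≤ s.re → riemannZeta s ≠ 0) :=
  main2 Pool.Agent.N539.KL.cos Pool.Agent.N747.KL.sha

end Pool.Agent.N963.KL
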