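import Pool.Agent.N963.KL.Stm
import Pool.Agent.N963.GN.W

set_option autoImplicit false

/-!
# Project KL: the final deduction (helper963)
-/

namespace Pool.Agent.N963.KL

open Complex Filter Topology MeasureTheory Polynomial
open scoped ComplexConjugate
open Pool.Agent.N963.GN

/-- `‖φ(i L)‖ exp(-κ L)` is nondecreasing for large `L`. -/
def Gw (φ : ℂ → ℂ) (κ : ℝ) : Prop :=
  ∃ L0 : ℝ, ∀ a b : ℝ, L0 ≤ a → a ≤ b → ‖φ (I * a)‖ * Real.exp (κ * (b - a)) ≤ ‖φ (I * b)‖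

/-- The function `φ(D) Ξ`. -/
noncomputable def GZ (φ : ℂ → ℂ) (z : ℂ) : ℂ := ∫ t : ℝ, ((Kx t : ℝ) : ℂ) * φ (I * t) * cexp (I * z * t)

lemma lpc_neg {φ : ℂ → ℂ} (h : LPc φ) : LPc (fun s => φ (-s)) := by
  obtain ⟨⟨z, hz⟩, Q, hQ, hT⟩ := h
  refine ⟨⟨-z, by simpa using hz⟩, fun N => (Q N).comp (-X), ?_, ?_⟩
  · intro N w hw
    rw [aeval_comp] at hw
    have := hQ N _ hw
    simpa using this
  · have h1 : TendstoLocallyUniformly (fun (N : ℕ) (w : ℂ) => aeval (-w) (Q N)) (fun w => φ (-w)) atTop :=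
      hT.comp (fun w => -w) continuous_neg
    refine h1.congr fun N w => ?_
    rw [aeval_comp]
    simp

lemma wtS {S : ℂ → ℂ} {κ : ℝ} (hS : SS S κ) (hc : Continuous Kx)
    (hM : ∀ M : ℝ, Integrable (fun t : ℝ => |Kx t| * Real.exp (M * t ^ 2))) {g : ℝ → ℂ} (hg : Continuous g)
    {C : ℝ} (hgC : ∀ t, ‖g t‖ ≤ C) : Wt (fun t : ℝ => ((Kx t : ℝ) : ℂ) * (S t * g t)) := by
  obtain ⟨M, hM0, hb⟩ := hS.bd
  intro N
  have hC0 : 0 ≤ C := (norm_nonneg _).trans (hgC 0)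
  have hSc : Continuous fun t : ℝ => S t := hS.diff.continuous.comp continuous_ofReal
  refine ((hM (M + |N|)).const_mul (M * C * Real.exp |N|)).mono' ?_ (Eventually.of_forall fun t => ?_)
  · exact (((continuous_ofReal.comp hc).mul (hSc.mul hg)).mul
      (continuous_ofReal.comp (by fun_prop))).aestronglyMeasurable
  · rw [norm_mul, norm_mul, norm_mul, Complex.norm_real, Real.norm_eq_abs, Complex.norm_real, Real.norm_eq_abs,
      abs_of_pos (Real.exp_pos _)]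
    have h1 := hb (t : ℂ)
    rw [Complex.norm_real, Real.norm_eq_abs, sq_abs] at h1
    have h2 : Real.exp (N * |t|) ≤ Real.exp |N| * Real.exp (|N| * t ^ 2) := by
      rw [← Real.exp_add, Real.exp_le_exp]
      have h3 : |t| ≤ 1 + t ^ 2 := by nlinarith [sq_nonneg (|t| - 1), sq_abs t, abs_nonneg t]
      nlinarith [le_abs_self N, abs_nonneg N, abs_nonneg t, mul_le_mul_of_nonneg_left h3 (abs_nonneg N),
        mul_le_mul_of_nonneg_right (le_abs_self N) (abs_nonneg t)]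
    calc |Kx t| * (‖S t‖ * ‖g t‖) * Real.exp (N * |t|)
        ≤ |Kx t| * ((M * Real.exp (M * t ^ 2)) * C) * (Real.exp |N| * Real.exp (|N| * t ^ 2)) := by
          gcongr
          exact hgC t
      _ = M * C * Real.exp |N| * (|Kx t| * Real.exp ((M + |N|) * t ^ 2)) := by
          rw [add_mul, Real.exp_add]
          ring

/-- zeros in compact sets -/
lemma fin_zeros {G : ℂ → ℂ} (hG : Differentiable ℂ G) (h0 : ∃ z, G z ≠ 0) {K : Set ℂ} (hK : IsCompact K) :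
    (K ∩ {z | G z = 0}).Finite := by
  by_contra hinf
  have hinf' : (K ∩ {z | G z = 0}).Infinite := hinf
  obtain ⟨a, -, ha⟩ := hinf'.exists_accPt_of_subset_isCompact hK Set.inter_subset_left
  have han : AnalyticOnNhd ℂ G Set.univ := fun z _ => hG.analyticAt z
  have hfr : ∃ᶠ z in 𝓝[≠] a, G z = 0 := by
    rw [accPt_iff_frequently_nhdsNE] at ha
    exact ha.mono fun z hz => hz.2
  have := han.eqOn_zero_of_preconnected_of_frequently_eq_zero isPreconnected_univ (Set.mem_univ a) hfr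
  obtain ⟨z, hz⟩ := h0
  exact hz (this (Set.mem_univ z))

section
variable {φ : ℂ → ℂ} {κ : ℝ}

lemma cont_gg (hg : S_GG) : Continuous fun t : ℝ => gg (t : ℂ) := by
  refine continuous_iff_continuousAt.2 fun t => ?_
  have h1 : DifferentiableAt ℂ gg (t : ℂ) := hg.1 _ (by
    rw [Complex.ofReal_im, abs_zero]
    exact half_pos Real.pi_pos)
  exact ContinuousAt.comp (f := fun t : ℝ => (t : ℂ)) (g := gg) h1.continuousAt continuous_ofReal.continuousAt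

lemma gg_bd (hg : S_GG) : ∃ C : ℝ, ∀ t : ℝ, ‖gg (t : ℂ)‖ ≤ C := by
  obtain ⟨C, -, h, -⟩ := hg.2.2.1
  exact ⟨C, fun t => (h (t : ℂ) (by simp)).1⟩

lemma wtA {S : ℂ → ℂ} {κ : ℝ} (hS : SS S κ) (hR : S_REP) (hg : S_GG) :
    Wt (fun t : ℝ => ((Kx t : ℝ) : ℂ) * (S t * gg t)) := by
  obtain ⟨C, hC⟩ := gg_bd hg
  exact wtS hS hR.2.2.1 hR.2.2.2.1 (cont_gg hg) hC

lemma AA_diff {S : ℂ → ℂ} {κ : ℝ} (hS : SS S κ) (hR : S_REP) (hg : S_GG) : Differentiable ℂ (AA S) :=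
  diff_Lt (wtA hS hR hg)

lemma wt1 {S : ℂ → ℂ} {κ : ℝ} (hS : SS S κ) (hR : S_REP) : Wt (fun t : ℝ => ((Kx t : ℝ) : ℂ) * S t) := by
  have := wtS hS hR.2.2.1 hR.2.2.2.1 (g := fun _ => 1) continuous_const (C := 1) (by simp)
  simpa using this

lemma GZ_eq (φ : ℂ → ℂ) : GZ φ = Lt (fun t : ℝ => ((Kx t : ℝ) : ℂ) * (fun w => φ (I * w)) (t : ℂ)) := rfl

lemma split_GZ (hS : SS (fun w => φ (I * w)) κ) (hR : S_REP) (hg : S_GG) (z : ℂ) :
    GZ φ z = AA (fun w => φ (I * w)) z + conj (AA (fun w => φ (I * w)) (conj z)) := by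
  set S : ℂ → ℂ := fun w => φ (I * w) with hSdef
  have h1 : conj (AA S (conj z)) = ∫ t : ℝ, ((Kx t : ℝ) : ℂ) * (S t * gg (-t)) * cexp (I * z * t) := by
    unfold AA
    rw [← integral_conj, ← integral_neg_eq_self]
    refine integral_congr_ae (Eventually.of_forall fun t => ?_)
    simp only [map_mul, hR.1, Complex.conj_ofReal]
    have e1 : conj (S ((-t : ℝ) : ℂ)) = S t := by
      have h2 := hS.herm (t : ℂ)
      rw [Complex.conj_ofReal] at h2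
      rw [Complex.ofReal_neg]
      have h3 : S (-(t : ℂ)) = conj (S t) := h2
      rw [h3, Complex.conj_conj]
    have e2 : conj (gg ((-t : ℝ) : ℂ)) = gg (-(t : ℂ)) := by
      rw [(hg.2.1 (-t)).2, Complex.ofReal_neg]
    rw [e1, e2, ← Complex.exp_conj]
    congr 2
    simp only [map_mul, Complex.conj_I, Complex.conj_ofReal, Complex.conj_conj]
    push_cast
    ring
  have hi1 : Integrable (fun t : ℝ => ((Kx t : ℝ) : ℂ) * (S t * gg t) * cexp (I * z * t)) :=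
    (wtA hS hR hg).integrand z
  have hi2 : Integrable (fun t : ℝ => ((Kx t : ℝ) : ℂ) * (S t * gg (-t)) * cexp (I * z * t)) := by
    obtain ⟨C, hC⟩ := gg_bd hg
    have hc : Continuous fun t : ℝ => gg (-(t : ℂ)) := by
      have := (cont_gg hg).comp continuous_neg
      refine this.congr fun t => ?_
      simp
    exact (wtS hS hR.2.2.1 hR.2.2.2.1 hc (C := C) (fun t => by
      have := hC (-t)
      rwa [Complex.ofReal_neg] at this)).integrand z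
  rw [h1]
  unfold AA GZ
  rw [← integral_add hi1 hi2]
  refine integral_congr_ae (Eventually.of_forall fun t => ?_)
  simp only
  have h3 : gg (t : ℂ) + gg (-(t : ℂ)) = 1 := (hg.2.1 t).1
  show ((Kx t : ℝ) : ℂ) * S t * cexp (I * z * t) = _
  linear_combination (-(((Kx t : ℝ) : ℂ) * S t * cexp (I * z * t))) * h3

lemma GZ_neg (hR : S_REP) (φ : ℂ → ℂ) (z : ℂ) : GZ (fun s => φ (-s)) z = GZ φ (-z) := by
  unfold GZ
  rw [← integral_neg_eq_self]
  refine integral_congr_ae (Eventually.of_forall fun t => ?_)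
  simp only [hR.1]
  congr 2
  · push_cast
    congr 2
    ring
  · push_cast
    ring

/-- the zeros on the right -/
theorem right (hR : S_REP) (hg : S_GG) (hL : S_LPS) (hAB : ∀ (S : ℂ → ℂ) (κ : ℝ), SS S κ → 1 / 2 < κ → AB (AA S))
    (hZ : S_ZER) (hφ : LPc φ) (hκ : 1 / 2 < κ) (hgw : Gw φ κ) :
    ∃ C x0 : ℝ, 2 ≤ x0 ∧ (∀ z : ℂ, x0 ≤ z.re → |z.im| ≤ 1 / 2 → z.im ≠ 0 → GZ φ z ≠ 0) ∧
    (∀ x : ℝ, x0 ≤ x → GZ φ x = 0 → deriv (GZ φ) x ≠ 0) ∧
    (∀ x : ℝ, x0 ≤ x → ∃ y : ℝ, x ≤ y ∧ y ≤ x + 7 / Real.log x ∧ GZ φ y = 0) ∧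
    ∀ x y : ℝ, x0 ≤ x → x < y → GZ φ x = 0 → GZ φ y = 0 → (∀ u : ℝ, x < u → u < y → GZ φ u ≠ 0) →
      |(y - x) * Real.log x / (2 * Real.pi) - 1| ≤ C / Real.log x := by
  have hS := hL φ κ hφ hgw
  exact hZ (AA (fun w => φ (I * w))) (AA_diff hS hR hg) (hAB _ κ hS hκ) (GZ φ) (fun z => split_GZ hS hR hg z)

theorem main1 (hR : S_REP) (hg : S_GG) (hL : S_LPS)
    (hAB : ∀ (S : ℂ → ℂ) (κ : ℝ), SS S κ → 1 / 2 < κ → AB (AA S)) (hZ : S_ZER)
    (hsum : ∀ φ : ℂ → ℂ, LPc φ → ∀ z : ℂ, HasSum (trm φ Xi z) (GZ φ z)) (hst : S_STRIP)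
    (hφ : LPc φ) (hκ : 1 / 2 < κ) (hgw : Gw φ κ) :
    Differentiable ℂ (GZ φ) ∧ {z : ℂ | GZ φ z = 0 ∧ (z.im ≠ 0 ∨ deriv (GZ φ) z = 0)}.Finite ∧
    {x : ℝ | GZ φ x = 0}.Infinite ∧
    ∃ C x0 : ℝ, 2 ≤ x0 ∧ ∀ x y : ℝ, x0 ≤ x → x < y → GZ φ x = 0 → GZ φ y = 0 →
      (∀ u : ℝ, x < u → u < y → GZ φ u ≠ 0) → |(y - x) * Real.log x / (2 * Real.pi) - 1| ≤ C / Real.log x := by
  have hS := hL φ κ hφ hgw
  have hd : Differentiable ℂ (GZ φ) := by
    rw [GZ_eq]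
    exact diff_Lt (wt1 hS hR)
  obtain ⟨C, x0, hx0, ha, hb, hc, hdd⟩ := right hR hg hL hAB hZ hφ hκ hgw
  have hgw' : Gw (fun s => φ (-s)) κ := by
    obtain ⟨L0, h⟩ := hgw
    refine ⟨L0, fun a b h1 h2 => ?_⟩
    have hconj : ∀ x : ℝ, ‖φ (-(I * x))‖ = ‖φ (I * x)‖ := by
      intro x
      have h3 := hS.herm (x : ℂ)
      simp only [Complex.conj_ofReal] at h3
      rw [← mul_neg, h3, Complex.norm_conj]
    simp only [hconj]
    exact h a b h1 h2
  obtain ⟨C', x0', hx0', ha', hb', -, -⟩ := right hR hg hL hAB hZ (lpc_neg hφ) hκ hgw'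
  have hne : ∃ z, GZ φ z ≠ 0 := by
    refine ⟨(x0 : ℂ) + ((1 / 2 : ℝ) : ℂ) * I, ha _ ?_ ?_ ?_⟩
    · simp
    · simp
    · simp
  have hstrip := hst φ (GZ φ) hφ (hsum φ hφ) hne
  refine ⟨hd, ?_, ?_, C, x0, hx0, hdd⟩
  · set R : ℝ := max x0 x0' with hRdef
    have hcomp : IsCompact (Complex.reProdIm (Set.Icc (-R) R) (Set.Icc (-(1 / 2 : ℝ)) (1 / 2))) := by
      exact (isCompact_Icc.reProdIm isCompact_Icc)
    refine (fin_zeros hd hne hcomp).subset ?_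
    rintro z ⟨h0, h1⟩
    refine ⟨?_, h0⟩
    have him := hstrip z h0
    rw [Complex.mem_reProdIm]
    refine ⟨?_, abs_le.1 him⟩
    rw [Set.mem_Icc, ← abs_le]
    by_contra hcon
    push Not at hcon
    rcases le_or_gt 0 z.re with hz | hz
    · rw [abs_of_nonneg hz] at hcon
      have hx : x0 ≤ z.re := (le_max_left _ _).trans hcon.le
      rcases eq_or_ne z.im 0 with hi | hi
      · have hzr : z = (z.re : ℂ) := Complex.ext (by simp) (by simpa using hi)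
        rcases h1 with h1 | h1
        · exact h1 hi
        · rw [hzr] at h0 h1
          exact hb z.re hx h0 h1
      · exact ha z hx him hi h0
    · rw [abs_of_neg hz] at hcon
      have hx : x0' ≤ (-z).re := by
        rw [Complex.neg_re]
        exact (le_max_right _ _).trans hcon.le
      have h0' : GZ (fun s => φ (-s)) (-z) = 0 := by
        rw [GZ_neg hR, neg_neg]
        exact h0
      rcases eq_or_ne z.im 0 with hi | hi
      · have hzr : -z = (((-z).re : ℝ) : ℂ) := Complex.ext (by simp) (by simpa using hi)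
        rcases h1 with h1 | h1
        · exact h1 hi
        · have h2 : deriv (GZ (fun s => φ (-s))) (-z) = 0 := by
            have e : GZ (fun s => φ (-s)) = fun z => GZ φ (-z) := funext (GZ_neg hR φ)
            rw [e, deriv_comp_neg, neg_neg, h1, neg_zero]
          rw [hzr] at h0' h2
          exact hb' _ hx h0' h2
      · refine ha' (-z) hx ?_ ?_ h0'
        · rwa [Complex.neg_im, abs_neg]
        · rwa [Complex.neg_im, neg_ne_zero]
  · intro hfin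
    obtain ⟨B, hB⟩ := hfin.bddAbove
    obtain ⟨y, hy1, -, hy3⟩ := hc (max x0 (B + 1)) (le_max_left _ _)
    have h1 := hB hy3
    have h2 := (le_max_right x0 (B + 1)).trans hy1
    linarith

end

/-- the sharpness -/
theorem main2 (hC : S_COS) (hSh : S_SHA) :
    ((∃ σ : ℝ, σ < 1 ∧ ∀ s : ℂ, σ ≤ s.re → riemannZeta s ≠ 0) ↔ ∃ a : ℝ, 0 < a ∧ a < 1 / 2 ∧
      ∀ G : ℂ → ℂ, (∀ z, HasSum (trm (fun z => Complex.cos (a * z)) Xi z) (G z)) →
        {z : ℂ | G z = 0 ∧ z.im ≠ 0}.Finite) ∧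
    ((∃ κ : ℝ, 0 < κ ∧ κ < 1 / 2 ∧ ∀ φ : ℂ → ℂ, LPc φ → Gw φ κ →
      ∀ G : ℂ → ℂ, (∀ z, HasSum (trm φ Xi z) (G z)) → {z : ℂ | G z = 0 ∧ z.im ≠ 0}.Finite) →
      ∃ σ : ℝ, σ < 1 ∧ ∀ s : ℂ, σ ≤ s.re → riemannZeta s ≠ 0) := by
  obtain ⟨hC1, hC2, hC3⟩ := hC
  have key : ∀ a : ℝ, 0 < a → a < 1 / 2 → (∀ G : ℂ → ℂ,
      (∀ z, HasSum (trm (fun z => Complex.cos (a * z)) Xi z) (G z)) → {z : ℂ | G z = 0 ∧ z.im ≠ 0}.Finite) →
      ∃ σ : ℝ, σ < 1 ∧ ∀ s : ℂ, σ ≤ s.re → riemannZeta s ≠ 0 := by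
    intro a ha0 ha1 h
    refine hSh.1 a ha0 ha1 ?_
    have h1 := h (fun z => (Xi (z + I * a) + Xi (z - I * a)) / 2) (fun z => hC3 a z)
    refine h1.subset fun z hz => ⟨?_, hz.2⟩
    simp only [hz.1, zero_div]
  refine ⟨⟨fun h => ?_, ?_⟩, ?_⟩
  · obtain ⟨a, ha0, ha1, ha⟩ := hSh.2 h
    refine ⟨a, ha0, ha1, fun G hG => ?_⟩
    have he : ∀ z, G z = (Xi (z + I * a) + Xi (z - I * a)) / 2 := fun z => (hG z).unique (hC3 a z)
    have : {z : ℂ | G z = 0 ∧ z.im ≠ 0} = ∅ := by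
      ext z
      simp only [Set.mem_ofPred_eq, Set.mem_empty_iff_false, iff_false, not_and, not_not]
      intro h0
      rw [he] at h0
      exact ha z (by simpa using h0)
    rw [this]
    exact Set.finite_empty
  · rintro ⟨a, ha0, ha1, h⟩
    exact key a ha0 ha1 h
  · rintro ⟨κ, h0, h1, h⟩
    have h2 : κ < (κ + 1 / 2) / 2 := by linarith
    exact key ((κ + 1 / 2) / 2) (by linarith) (by linarith)
      (h _ (hC1 _ (by linarith)) (hC2 _ κ h0 h2))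

end Pool.Agent.N963.KL
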